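import Pool.Agent.THX.Final
import Pool.Agent.THX.UBfin

/-!
# MP_b22b9c_an, hand-in ExactNearOne

The exact value of the constant `D(λ)` on an interval to the right of `1`:
`D(λ) = -πλ/(1 + |sin πλ|)` for `1 ≤ λ ≤ 1 + δ`.
-/

set_option autoImplicit false
set_option linter.all false

namespace Pool.Agent.Results.MP_b22b9c_an.ExactNearOne

open Pool.Agent.MML

theorem result : ∃ δ : ℝ, 0 < δ ∧ ∀ lam : ℝ, 1 ≤ lam → lam ≤ 1 + δ →
    D lam = ((-(Real.pi * lam) / (1 + |Real.sin (Real.pi * lam)|) : ℝ) : EReal) := by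
  obtain ⟨e, he, h⟩ := Pool.Agent.THX.lower
  refine ⟨min e (1 / 4), lt_min he (by norm_num), fun lam h1 h2 => ?_⟩
  have h3 := min_le_left e (1 / 4)
  have h4 := min_le_right e (1 / 4)
  exact le_antisymm (Pool.Agent.THX.upper lam h1 (by linarith)) (h lam h1 (by linarith))

end Pool.Agent.Results.MP_b22b9c_an.ExactNearOne
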