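import Pool.Agent.MML.Final
import Pool.Agent.MML.FinS

/-!
# MP_b22b9c_an, hand-in LowerBound

The first improvement of Petrenko's lower bound `D(λ) ≥ -πλ`: it is strict for every `λ > 1`, and
`D(λ) ≥ -(6/7) π λ` for every `λ ≥ 4/3`.
-/

set_option autoImplicit false

namespace Pool.Agent.Results.MP_b22b9c_an.LowerBound

open Pool.Agent.MML

theorem result :
    (∀ lam : ℝ, 1 < lam → ((-(Real.pi * lam) : ℝ) : EReal) < D lam) ∧
      (∀ lam : ℝ, 4 / 3 ≤ lam → ((-(6 / 7 * Real.pi * lam) : ℝ) : EReal) ≤ D lam) := by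
  refine ⟨fun lam h => ?_, final⟩
  rcases lt_or_ge lam (4 / 3) with h2 | h2
  · exact final_strict lam h h2
  · refine lt_of_lt_of_le ?_ (final lam h2)
    have h3 := Real.pi_pos
    have h4 : 0 < Real.pi * lam := by positivity
    have h5 : -(Real.pi * lam) < -(6 / 7 * Real.pi * lam) := by nlinarith
    exact_mod_cast h5

end Pool.Agent.Results.MP_b22b9c_an.LowerBound
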