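import Pool.Agent.MMR.FinX

/-!
# MP_b22b9c_an, hand-in MinimaNearRays

The bounds of Essén and Shea are optimal for the entire functions whose minimum modulus is attained near a ray (all lower
orders `λ ≥ 1`) or near a logarithmic spiral.
-/

set_option autoImplicit false

namespace Pool.Agent.Results.MP_b22b9c_an.MinimaNearRays

open Real Filter Topology Pool.Agent.MML Pool.Agent.MMR

theorem result :
    (∀ lam : ℝ, 1 ≤ lam → lam ≤ 3 / 2 → Bound 0 lam (π * lam / (1 + |sin (π * lam)|))) ∧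
      (∀ lam : ℝ, 3 / 2 ≤ lam → Bound 0 lam (π * lam / 2)) ∧
      (∀ b lam : ℝ, 3 / 2 * (1 + b ^ 2) ≤ lam → Bound b lam (π * lam / 2 * spiralFactor b)) ∧
      (∀ b : ℝ, spiralFactor b ≤ 1) ∧
      ∀ (f : ℂ → ℂ) (θ : ℝ → ℝ), (∀ᶠ r in atTop, ‖f (pt θ r)‖ = minMod f r) →
        minRatio f = curveRatio f θ := by
  refine ⟨fun lam h1 h2 => bound_B h1 h2, fun lam h => ?_, fun b lam h => bound_A h, factor_le,
    fun f θ h => (curve_min h).symm⟩
  have h1 := bound_A (b := 0) (lam := lam) (by rw [zero_pow two_ne_zero, add_zero, mul_one]; exact h)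
  rwa [factor_zero, mul_one] at h1

end Pool.Agent.Results.MP_b22b9c_an.MinimaNearRays
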