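import Pool.Agent.MinMod.Fin

/-!
MP_b22b9c_an: the known upper bound `D(λ) ≤ -πλ/2` is not sharp for any `3/2 ≤ λ < 2`.
-/

namespace Pool.Agent.Results.MP_b22b9c_an.UpperBound

open Pool.Agent.MinMod

/-- For every `λ` in `[3/2, 2)`: `D(λ) ≤ -min(π, (12/5)(λ - 1/2))`, and `min(π, (12/5)(λ - 1/2)) > πλ/2`. -/
theorem result (lam : ℝ) (h1 : 3 / 2 ≤ lam) (h2 : lam < 2) :
    D lam ≤ ((-(min Real.pi (12 / 5 * (lam - 1 / 2))) : ℝ) : EReal) ∧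
      Real.pi * lam / 2 < min Real.pi (12 / 5 * (lam - 1 / 2)) :=
  ⟨D_le_min h1 h2, better h1 h2⟩

end Pool.Agent.Results.MP_b22b9c_an.UpperBound
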